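import Mathlib
import Pool.Agent.T2H62.ME.F

set_option autoImplicit false

/-! # The limit law of Andrica's difference for the sieved random primes

Random primes: every integer `n` without a prime factor `p ≤ A log n` is chosen with probability
`∏_{p ≤ A log n} (1 - 1/p)⁻¹ / log n` (at most `1`), the other integers are not chosen, and the choices are independent
(`A = 1`: Granville's modification of Cramer's model). Almost surely, for the set `R` of the random primes: the difference
`√r' - √r` of consecutive `r < r'` in `R`, divided by `log r / (2 √r)`, has the standard exponential limit law, as `r` runs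
through the elements of `R` in `(N, 2 N]` and `N → ∞`; these are `(1 + o(1)) N / log N` elements. -/

namespace Pool.Agent.Results.MP_82fd4a_nt.ExponentialLaw

open Finset Filter Topology MeasureTheory ProbabilityTheory

open scoped Classical in
/-- the probability that `n` is a random prime -/
noncomputable def prob (A : ℝ) (n : ℕ) : ℝ :=
  if ∀ p : ℕ, p.Prime → (p : ℝ) ≤ A * Real.log n → ¬ p ∣ n then
    min 1 ((∏ p ∈ (Icc 1 ⌊A * Real.log n⌋₊).filter Nat.Prime, (1 - (p : ℝ)⁻¹)⁻¹) / Real.log n) else 0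

/-- the events `S n` (`n` is a random prime) are independent with the probabilities `prob A n` -/
def Model (A : ℝ) {Ω : Type*} [MeasurableSpace Ω] (μ : Measure Ω) (S : ℕ → Set Ω) : Prop :=
  IsProbabilityMeasure μ ∧ (∀ n, MeasurableSet (S n)) ∧ iIndepSet S μ ∧
    ∀ n, μ (S n) = ENNReal.ofReal (prob A n)

/-- `r < r'` are consecutive elements of `R` -/
def Consecutive (R : Set ℕ) (r r' : ℕ) : Prop := r ∈ R ∧ r' ∈ R ∧ r < r' ∧ ∀ n ∈ Ioo r r', n ∉ R

open scoped Classical in
/-- the number of the elements of `R` in `(N, 2 N]` -/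
noncomputable def total (R : Set ℕ) (N : ℕ) : ℕ := ((Ioc N (2 * N)).filter (fun r => r ∈ R)).card

open scoped Classical in
/-- the number of the elements `r` of `R` in `(N, 2 N]` whose successor `r'` in `R` satisfies
`√r' - √r > lam log r / (2 √r)` -/
noncomputable def large (R : Set ℕ) (lam : ℝ) (N : ℕ) : ℕ :=
  ((Ioc N (2 * N)).filter (fun r => ∃ r' : ℕ, Consecutive R r r' ∧
    lam * Real.log r / (2 * Real.sqrt r) < Real.sqrt r' - Real.sqrt r)).card

theorem result (A : ℝ) (hA : 0 < A) :
    -- the model exists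
    (∃ (μ : Measure (ℕ → Bool)) (S : ℕ → Set (ℕ → Bool)), Model A μ S) ∧
    ∀ (Ω : Type) [MeasurableSpace Ω] (μ : Measure Ω) (S : ℕ → Set Ω), Model A μ S →
      ∀ᵐ ω ∂μ,
        -- the exponential law
        (∀ lam : ℝ, 0 < lam → Tendsto (fun N : ℕ => (large {n | ω ∈ S n} lam N : ℝ) / total {n | ω ∈ S n} N)
          atTop (𝓝 (Real.exp (-lam)))) ∧
        -- the number of elements
        Tendsto (fun N : ℕ => (total {n | ω ∈ S n} N : ℝ) / (N / Real.log N)) atTop (𝓝 1) := by
  classical
  have hprob : ∀ n, prob A n = Pool.Agent.T2H53.GW.pr A n := fun n => rfl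
  refine ⟨?_, ?_⟩
  · obtain ⟨μ, S, h1, h2, h3, h4⟩ := Pool.Agent.T2H53.GW.exists_model (prob A)
      (fun n => by rw [hprob]; exact Pool.Agent.T2H53.GW.pr_nonneg A n)
      (fun n => by rw [hprob]; exact Pool.Agent.T2H53.GW.pr_le_one A n)
    exact ⟨μ, S, h1, h2, h3, h4⟩
  · rintro Ω _ μ S ⟨hμ, hm, hi, hp⟩
    have hp' : ∀ n, μ.real (S n) = Pool.Agent.T2H53.GW.pr A n := fun n => by
      rw [measureReal_def, hp n, ENNReal.toReal_ofReal (by rw [hprob]; exact Pool.Agent.T2H53.GW.pr_nonneg A n), hprob]
    filter_upwards [Pool.Agent.T2H62.ME.gap_law hA hm hi hp'] with ω hω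
    obtain ⟨h1, h2, h3⟩ := hω {n | ω ∈ S n} (fun n => Classical.propDecidable _) rfl
    obtain ⟨R, hR⟩ : ∃ R : Set ℕ, R = {n | ω ∈ S n} := ⟨_, rfl⟩
    rw [← hR] at h1 h2 h3 ⊢
    have hunb : ∀ a : ℕ, ∃ n, a < n ∧ n ∈ R := by
      intro a
      obtain ⟨n₀, hn₀⟩ := eventually_atTop.1 h3
      obtain ⟨n, hn, hnR⟩ := hn₀ (a + n₀) (by omega)
      rw [mem_Ioc] at hn
      exact ⟨n, by omega, hnR⟩
    refine ⟨fun lam hlam => ?_, ?_⟩
    · have h4 := Pool.Agent.T2H62.ME.andrica_law (R := R) h1 h2 lam hlam
      refine h4.congr (fun N => ?_)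
      have h5 : ((Ioc N (2 * N)).filter (fun r => r ∈ R ∧ ∀ r' ∈ R, r < r' →
          lam * Real.log r / (2 * Real.sqrt r) < Real.sqrt r' - Real.sqrt r)).card = large R lam N := by
        unfold large
        congr 1
        refine filter_congr (fun r _ => ?_)
        constructor
        · rintro ⟨h6, h7⟩
          have hex : ∃ n, r < n ∧ n ∈ R := hunb r
          have h8 := Nat.find_spec hex
          refine ⟨Nat.find hex, ⟨h6, h8.2, h8.1, fun n hn hnR => ?_⟩, h7 _ h8.2 h8.1⟩
          rw [mem_Ioo] at hn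
          exact Nat.find_min hex hn.2 ⟨hn.1, hnR⟩
        · rintro ⟨r', ⟨h6, h7, h8, h9⟩, h10⟩
          refine ⟨h6, fun s hs hrs => ?_⟩
          have h11 : r' ≤ s := by
            by_contra hcon
            exact h9 s (mem_Ioo.2 ⟨hrs, by omega⟩) hs
          have h12 : Real.sqrt (r' : ℝ) ≤ Real.sqrt (s : ℝ) := Real.sqrt_le_sqrt (by exact_mod_cast h11)
          linarith
      have h6 : ((Ioc N (2 * N)).filter (fun n => n ∈ R)).card = total R N := by
        unfold total
        congr
      rw [← h6, ← h5]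
    · rw [Metric.tendsto_atTop]
      intro ε hε
      obtain ⟨n₀, hn₀⟩ := eventually_atTop.1 (h2 (ε / 2) (by positivity))
      refine ⟨n₀ + 3, fun N hN => ?_⟩
      have h4 := hn₀ N (by omega)
      have hN0 : (0 : ℝ) < N := by exact_mod_cast (by omega : 0 < N)
      have hl : 0 < Real.log (N : ℝ) := Real.log_pos (by exact_mod_cast (by omega : 1 < N))
      have h5 : 0 < (N : ℝ) / Real.log N := by positivity
      have h6 : (total R N : ℝ) = (((Ioc N (2 * N)).filter (fun n => n ∈ R)).card : ℝ) := by
        unfold total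
        congr
      rw [← h6] at h4
      rw [Real.dist_eq, show (total R N : ℝ) / (N / Real.log N) - 1 = ((total R N : ℝ) - N / Real.log N) / (N / Real.log N) by
        field_simp, abs_div, abs_of_pos h5, div_lt_iff₀ h5]
      nlinarith

end Pool.Agent.Results.MP_82fd4a_nt.ExponentialLaw
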