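import Mathlib
import Pool.Agent.T2H62.MK.H

set_option autoImplicit false

/-! # The most frequent gaps between sieved random primes

Random primes: every integer `n` without a prime factor `p ≤ A log n` is chosen with probability
`∏_{p ≤ A log n} (1 - 1/p)⁻¹ / log n` (at most `1`), the other integers are not chosen, and the choices are independent
(`A = 1`: Granville's modification of Cramer's model). Almost surely, the most frequent differences `h` of consecutive random
primes in `(N, 2 N]` (the jumping champions) tend to infinity, `h = o(log N)`, and every fixed prime divides all of them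
for large `N`. -/

namespace Pool.Agent.Results.MP_82fd4a_nt.JumpingChampions

open Finset Filter Topology MeasureTheory ProbabilityTheory

open scoped Classical in
/-- the probability that `n` is a random prime -/
noncomputable def prob (A : ℝ) (n : ℕ) : ℝ :=
  if ∀ p : ℕ, p.Prime → (p : ℝ) ≤ A * Real.log n → ¬ p ∣ n then
    min 1 ((∏ p ∈ (Icc 1 ⌊A * Real.log n⌋₊).filter Nat.Prime, (1 - (p : ℝ)⁻¹)⁻¹) / Real.log n) else 0

/-- the events `S n` (`n` is a random prime) are independent with the probabilities `prob A n` -/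
def Model (A : ℝ) {Ω : Type*} [MeasurableSpace Ω] (μ : Measure Ω) (S : ℕ → Set Ω) : Prop :=
  IsProbabilityMeasure μ ∧ (∀ n, MeasurableSet (S n)) ∧ iIndepSet S μ ∧
    ∀ n, μ (S n) = ENNReal.ofReal (prob A n)

open scoped Classical in
/-- the number of the `r ∈ (N, 2 N]` such that `r` and `r + h` are consecutive elements of `R` -/
noncomputable def gaps (R : Set ℕ) (h N : ℕ) : ℕ :=
  ((Ioc N (2 * N)).filter (fun r => r ∈ R ∧ 0 < h ∧ r + h ∈ R ∧ ∀ n : ℕ, r < n → n < r + h → n ∉ R)).card

/-- `h` is a most frequent difference of consecutive elements of `R` in `(N, 2 N]` -/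
def Champion (R : Set ℕ) (N h : ℕ) : Prop := 0 < gaps R h N ∧ ∀ h' : ℕ, gaps R h' N ≤ gaps R h N

theorem result (A : ℝ) (hA : 0 < A) :
    -- the model exists
    (∃ (μ : Measure (ℕ → Bool)) (S : ℕ → Set (ℕ → Bool)), Model A μ S) ∧
    ∀ (Ω : Type) [MeasurableSpace Ω] (μ : Measure Ω) (S : ℕ → Set Ω), Model A μ S →
      ∀ᵐ ω ∂μ, ∀ R : Set ℕ, R = {n | ω ∈ S n} →
        -- for large `N` there is a most frequent difference
        (∀ᶠ N : ℕ in atTop, ∃ h : ℕ, Champion R N h) ∧
        -- every prime divides all of them for large `N`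
        (∀ p : ℕ, p.Prime → ∀ᶠ N : ℕ in atTop, ∀ h : ℕ, Champion R N h → p ∣ h) ∧
        -- they tend to infinity, but more slowly than `log N`
        (∀ K : ℕ, ∀ᶠ N : ℕ in atTop, ∀ h : ℕ, Champion R N h → K ≤ h) ∧
        ∀ ε : ℝ, 0 < ε → ∀ᶠ N : ℕ in atTop, ∀ h : ℕ, Champion R N h → (h : ℝ) ≤ ε * Real.log N := by
  classical
  have hprob : ∀ n, prob A n = Pool.Agent.T2H53.GW.pr A n := fun n => rfl
  refine ⟨?_, ?_⟩
  · obtain ⟨μ, S, h1, h2, h3, h4⟩ := Pool.Agent.T2H53.GW.exists_model (prob A)
      (fun n => by rw [hprob]; exact Pool.Agent.T2H53.GW.pr_nonneg A n)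
      (fun n => by rw [hprob]; exact Pool.Agent.T2H53.GW.pr_le_one A n)
    exact ⟨μ, S, h1, h2, h3, h4⟩
  · rintro Ω _ μ S ⟨hμ, hm, hi, hp⟩
    have hp' : ∀ n, μ.real (S n) = Pool.Agent.T2H53.GW.pr A n := fun n => by
      rw [measureReal_def, hp n, ENNReal.toReal_ofReal (by rw [hprob]; exact Pool.Agent.T2H53.GW.pr_nonneg A n), hprob]
    obtain ⟨s, hs, hSG⟩ := Pool.Agent.T2H62.MT.SG_lim
    filter_upwards [Pool.Agent.T2H62.MK.all_ae hA hm hi hp' s hs hSG] with ω hω R hR
    obtain ⟨hunb, hE, hodd, hlong⟩ := hω R hR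
    have hNG : ∀ h N : ℕ, gaps R h N = Pool.Agent.T2H62.MK.NG R h N := by
      intro h N
      rcases Nat.eq_zero_or_pos h with h0 | h0
      · rw [h0, Pool.Agent.T2H62.MK.NG_zero hunb N]
        unfold gaps
        rw [card_eq_zero, filter_eq_empty_iff]
        rintro r _ ⟨-, h1, -⟩
        omega
      · rw [Pool.Agent.T2H62.MK.NG_eq hunb N h h0]
        unfold Pool.Agent.T2H62.MK.CR gaps
        congr 1
        apply filter_congr
        intro r _
        have h3 : (∀ a ∈ Icc 1 (h - 1), r + a ∉ R) ↔ ∀ n : ℕ, r < n → n < r + h → n ∉ R := by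
          constructor
          · intro h4 n h5 h6
            have := h4 (n - r) (by rw [mem_Icc]; omega)
            have e : r + (n - r) = n := by omega
            rwa [e] at this
          · intro h4 a ha
            rw [mem_Icc] at ha
            exact h4 (r + a) (by omega) (by omega)
        rw [h3]
        tauto
    have hC : ∀ N h : ℕ, Champion R N h → ∀ h' : ℕ, Pool.Agent.T2H62.MK.NG R h' N ≤ Pool.Agent.T2H62.MK.NG R h N := by
      intro N h h1 h'
      rw [← hNG, ← hNG]
      exact h1.2 h'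
    have hdiv : ∀ p : ℕ, p.Prime → ∀ᶠ N : ℕ in atTop, ∀ h : ℕ, Champion R N h → p ∣ h := by
      intro p hpp
      filter_upwards [Pool.Agent.T2H62.MK.champ hunb s hs hE hodd hlong p hpp] with N h1 h h2
      exact h1 h (hC N h h2)
    refine ⟨?_, hdiv, ?_, ?_⟩
    · filter_upwards [hlong, Pool.Agent.T2H62.MK.champ_small hunb s hs hE hodd hlong 1 one_pos le_rfl] with N h1 h2
      obtain ⟨M, hM⟩ : ∃ M : ℕ, M = ⌊Real.log (N : ℝ) ^ 4⌋₊ := ⟨_, rfl⟩
      obtain ⟨h, -, hmax⟩ := exists_max_image (range (M + 1)) (fun h => Pool.Agent.T2H62.MK.NG R h N) ⟨0, mem_range.2 (by omega)⟩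
      have h3 : ∀ h' : ℕ, Pool.Agent.T2H62.MK.NG R h' N ≤ Pool.Agent.T2H62.MK.NG R h N := by
        intro h'
        by_cases h4 : h' ∈ range (M + 1)
        · exact hmax h' h4
        · rw [mem_range] at h4
          have h5 : Real.log (N : ℝ) ^ 4 < h' := by
            have h6 : Real.log (N : ℝ) ^ 4 < M + 1 := by rw [hM]; exact Nat.lt_floor_add_one _
            have h7 : ((M + 1 : ℕ) : ℝ) ≤ h' := by exact_mod_cast (by omega : M + 1 ≤ h')
            push_cast at h7
            linarith
          rw [h1 h' h5]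
          exact Nat.zero_le _
      refine ⟨h, ?_, fun h' => ?_⟩
      · rw [hNG]
        exact (h2 h h3).1
      · rw [hNG, hNG]
        exact h3 h'
    · intro K
      obtain ⟨p, hpK, hpp⟩ := Nat.exists_infinite_primes K
      filter_upwards [hdiv p hpp] with N h1 h h2
      have h3 := h1 h h2
      have h4 : 0 < h := by
        rcases Nat.eq_zero_or_pos h with h5 | h5
        · have h6 := h2.1
          rw [h5, hNG, Pool.Agent.T2H62.MK.NG_zero hunb N] at h6
          omega
        · exact h5
      exact hpK.trans (Nat.le_of_dvd h4 h3)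
    · intro ε hε
      filter_upwards [Pool.Agent.T2H62.MK.champ_small hunb s hs hE hodd hlong (min ε 1) (lt_min hε one_pos) (min_le_right _ _),
        Pool.Agent.T2H62.MM.tlog.eventually_ge_atTop 0] with N h1 h2 h h3
      exact (h1 h (hC N h h3)).2.trans (mul_le_mul_of_nonneg_right (min_le_left _ _) h2)

end Pool.Agent.Results.MP_82fd4a_nt.JumpingChampions
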