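import Pool.Agent.T2H62.Tup

/-!
# The inequality of Andrica for exact almost prime patterns

Let `T` be an admissible set of shifts, `L ≥ 0` and `ε > 0`. The numbers `m` such that all `m + h`, `h ∈ T`, are products
of a bounded number of large primes, while all the other integers at distance at most `L` from `m` have a small prime
factor, form a set `S` all of whose late consecutive elements `q < q'` satisfy `√q' - √q < q ^ (ε - 1/2)`; the question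
asks for `√q' - √q < 1` for primes. More precisely every interval `(x, x + x ^ ε]` contains at least the expected number
`κ x ^ ε / (log x) ^ |T|` of elements of `S`, and, for every colouring,
monochromatic progressions of elements of `S` of any prescribed length with small differences.
-/

set_option autoImplicit false

namespace Pool.Agent.Results.MP_82fd4a_nt.PatternsAllGaps

open Finset Filter
open Pool.Agent.T2H62.TU

/-- `v > 1` is a product of at most `r` primes, all of them larger than `y` -/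
def AlmostPrime (r : ℕ) (y : ℝ) (v : ℕ) : Prop :=
  1 < v ∧ v.primeFactorsList.length ≤ r ∧ ∀ q : ℕ, q.Prime → q ∣ v → y < q

/-- every integer `m + d`, `|d| ≤ L`, `d ∉ T`, has a prime factor at most `C` -/
def Isolated (T : Finset ℕ) (L C m : ℕ) : Prop :=
  ∀ d : ℤ, |d| ≤ L → (∀ h ∈ T, d ≠ h) → ∃ q : ℕ, q.Prime ∧ q ≤ C ∧ (q : ℤ) ∣ (m : ℤ) + d

/-- the `m` such that all `m + h`, `h ∈ T`, are products of at most `t` primes `> m ^ (1 / t)`, and `m + T` is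
isolated -/
def S (T : Finset ℕ) (L C t : ℕ) : Set ℕ :=
  {m : ℕ | (∀ h ∈ T, AlmostPrime t ((m : ℝ) ^ (1 / (t : ℝ))) (m + h)) ∧ Isolated T L C m}

theorem result (T : Finset ℕ) (hT : T.Nonempty) (hadm : ∀ p : ℕ, p.Prime → ∃ a : ℕ, ∀ h ∈ T, ¬ p ∣ a + h) (L : ℕ)
    (ε : ℝ) (hε : 0 < ε) (hε1 : ε < 1 / 2) :
    ∃ C t : ℕ, 1 ≤ t ∧
    -- the gaps
    (∃ x₀ : ℕ, ∀ q q' : ℕ, x₀ ≤ q → q ∈ S T L C t → q' ∈ S T L C t → q < q' → (∀ m : ℕ, q < m → m < q' → m ∉ S T L C t) →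
      √(q' : ℝ) - √(q : ℝ) < (q : ℝ) ^ (ε - 1 / 2) ∧ √(q' : ℝ) - √(q : ℝ) < 1) ∧
    -- the number of elements in short intervals
    (∃ κ : ℝ, 0 < κ ∧ ∃ x₀ : ℕ, ∀ x : ℕ, x₀ ≤ x →
      κ * (x : ℝ) ^ ε / Real.log x ^ T.card ≤
        ({m : ℕ | x < m ∧ (m : ℝ) ≤ x + (x : ℝ) ^ ε ∧ m ∈ S T L C t}.ncard : ℝ)) ∧
    -- monochromatic progressions
    ∀ s r : ℕ, 1 ≤ s → ∃ b x₀ : ℕ, ∀ x : ℕ, x₀ ≤ x → ∀ χ : ℕ → Fin r, ∃ a d : ℕ, 1 ≤ d ∧ (d : ℝ) ≤ Real.log x ^ b ∧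
      ∀ l < s, x < a + l * d ∧ ((a + l * d : ℕ) : ℝ) ≤ x + (x : ℝ) ^ ε ∧ a + l * d ∈ S T L C t ∧ χ (a + l * d) = χ a := by
  classical
  obtain ⟨T', hT'⟩ : ∃ T' : Finset ℤ, T' = T.image (fun h : ℕ => (h : ℤ)) := ⟨_, rfl⟩
  have hTc : T'.card = T.card := by
    rw [hT']
    exact card_image_of_injective _ Nat.cast_injective
  have hmem : ∀ d : ℤ, d ∈ T' ↔ ∃ h ∈ T, (h : ℤ) = d := by
    intro d
    rw [hT', mem_image]
  have hne : T'.Nonempty := by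
    obtain ⟨h, hh⟩ := hT
    exact ⟨_, (hmem _).2 ⟨h, hh, rfl⟩⟩
  have hadm' : AdmT 1 T' := by
    intro p hp
    obtain ⟨a, ha⟩ := hadm p hp
    refine ⟨a, fun d hd hdv => ?_⟩
    obtain ⟨h, hh, rfl⟩ := (hmem _).1 hd
    apply ha h hh
    have h1 : ((1 : ℕ) : ℤ) * (a : ℤ) + (h : ℤ) = ((a + h : ℕ) : ℤ) := by push_cast; ring
    rw [h1] at hdv
    exact_mod_cast hdv
  obtain ⟨W, hW⟩ : ∃ W : Finset ℤ, W = (Icc (-(L : ℤ)) L).filter (fun d : ℤ => d ∉ T') := ⟨_, rfl⟩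
  have hTW : ∀ w ∈ W, w ∉ T' := by
    intro w hw
    rw [hW, mem_filter] at hw
    exact hw.2
  obtain ⟨C, t, ht, κ, K, hκ, hK, H⟩ := short 1 le_rfl hadm' hne hTW (ε / 2) (by positivity)
  rw [hTc] at H
  have hal : ∀ (r : ℕ) (y : ℝ) (v : ℕ), Pool.Agent.X32.Uni.Almost r y (v : ℤ) ↔ AlmostPrime r y v := by
    intro r y v
    unfold Pool.Agent.X32.Uni.Almost AlmostPrime
    rw [Nat.abs_cast, Int.natAbs_natCast]
    constructor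
    · rintro ⟨h1, h2, h3⟩
      exact ⟨by exact_mod_cast h1, h2, fun q hq hd => h3 q hq (Int.natCast_dvd_natCast.2 hd)⟩
    · rintro ⟨h1, h2, h3⟩
      exact ⟨by exact_mod_cast h1, h2, fun q hq hd => h3 q hq (Int.natCast_dvd_natCast.1 hd)⟩
  -- the elements found by the sieve are in `S`
  have hsub : ∀ X A B m : ℕ, B ≤ X → m ∈ GN 1 T' W C t X A B → A < m ∧ m ≤ B ∧ m ∈ S T L C t := by
    intro X A B m hBX hm
    unfold GN at hm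
    rw [mem_filter, mem_Ioc] at hm
    obtain ⟨⟨h1, h2⟩, h3, h4⟩ := hm
    have c0 : ∀ h : ℕ, ((1 : ℕ) : ℤ) * (m : ℤ) + (h : ℤ) = ((m + h : ℕ) : ℤ) := fun h => by push_cast; ring
    refine ⟨h1, h2, fun h hh => ?_, fun d hd1 hd2 => ?_⟩
    · have h5 := h3 (h : ℤ) ((hmem _).2 ⟨h, hh, rfl⟩)
      rw [c0, hal] at h5
      refine ⟨h5.1, h5.2.1, fun q hq hqd => lt_of_le_of_lt ?_ (h5.2.2 q hq hqd)⟩
      apply Real.rpow_le_rpow (Nat.cast_nonneg _) (by exact_mod_cast (by omega : m ≤ X)) (by positivity)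
    · obtain ⟨q, hq, hqC, hqd⟩ := h4 d (by
        rw [hW, mem_filter, mem_Icc]
        refine ⟨abs_le.1 hd1, fun h5 => ?_⟩
        obtain ⟨g, hg, hg2⟩ := (hmem _).1 h5
        exact hd2 g hg hg2.symm)
      refine ⟨q, hq, hqC, ?_⟩
      have c1 : ((1 : ℕ) : ℤ) * (m : ℤ) + d = (m : ℤ) + d := by push_cast; ring
      rwa [c1] at hqd
  -- one interval
  obtain ⟨N₁, hN₁⟩ : ∃ N₁ : ℕ, ∀ x : ℕ, N₁ ≤ x → 2 ≤ Real.log x ∧ (2 : ℝ) * (x : ℝ) ^ (ε / 2) ≤ (x : ℝ) ^ ε / 2 ∧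
      (2 : ℝ) ≤ (x : ℝ) ^ ε := by
    have h1 : Tendsto (fun x : ℕ => Real.log (x : ℝ)) atTop atTop :=
      Real.tendsto_log_atTop.comp tendsto_natCast_atTop_atTop
    have h2 : Tendsto (fun x : ℕ => (x : ℝ) ^ (ε / 2)) atTop atTop :=
      (tendsto_rpow_atTop (by positivity)).comp tendsto_natCast_atTop_atTop
    obtain ⟨N₁, hN₁⟩ := ((h1.eventually_ge_atTop 2).and ((h2.eventually_ge_atTop 4).and
      (eventually_ge_atTop 1))).exists_forall_of_atTop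
    refine ⟨N₁, fun x hx => ?_⟩
    obtain ⟨a1, a2, a3⟩ := hN₁ x hx
    have hx0 : (0 : ℝ) < x := by exact_mod_cast (by omega : 0 < x)
    have h3 : (x : ℝ) ^ ε = (x : ℝ) ^ (ε / 2) * (x : ℝ) ^ (ε / 2) := by
      rw [← Real.rpow_add hx0]
      congr 1
      ring
    refine ⟨a1, ?_, ?_⟩
    · rw [h3]
      nlinarith
    · rw [h3]
      nlinarith
  have hint : ∀ (s r : ℕ) (δ : ℝ), 1 ≤ s → 0 < δ → ∃ b x₀ : ℕ, 1 ≤ x₀ ∧ ∀ x : ℕ, x₀ ≤ x →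
      (κ / 2 ^ (T.card + 1)) * (x : ℝ) ^ ε / Real.log x ^ T.card ≤
        ((GN 1 T' W C t (2 * x) x (x + ⌊(x : ℝ) ^ ε⌋₊)).card : ℝ) ∧
      κ * (⌊(x : ℝ) ^ ε⌋₊ : ℝ) / Real.log ((2 * x : ℕ) : ℝ) ^ T.card ≤
        ((GN 1 T' W C t (2 * x) x (x + ⌊(x : ℝ) ^ ε⌋₊)).card : ℝ) ∧
      x + ⌊(x : ℝ) ^ ε⌋₊ ≤ 2 * x ∧ 0 < Real.log ((2 * x : ℕ) : ℝ) ∧ Real.log ((2 * x : ℕ) : ℝ) ≤ Real.log x ^ 2 ∧
      (1 : ℝ) ≤ (⌊(x : ℝ) ^ ε⌋₊ : ℝ) ∧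
      ∀ χ : ℕ → Fin r, ∃ P : Finset (ℕ × ℕ),
          (∀ z ∈ P, 1 ≤ z.2 ∧ (z.2 : ℝ) ≤ Real.log ((2 * x : ℕ) : ℝ) ^ b ∧
            ∀ l < s, z.1 + l * z.2 ∈ GN 1 T' W C t (2 * x) x (x + ⌊(x : ℝ) ^ ε⌋₊) ∧ χ (z.1 + l * z.2) = χ z.1) ∧
          (((GN 1 T' W C t (2 * x) x (x + ⌊(x : ℝ) ^ ε⌋₊) \ P.biUnion (Pool.Agent.X32.Uni.apSet s)).card : ℕ) : ℝ) ≤
            δ * (⌊(x : ℝ) ^ ε⌋₊ : ℝ) / Real.log ((2 * x : ℕ) : ℝ) ^ T.card := by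
    intro s r δ hs hδ
    obtain ⟨b, X₀, H1⟩ := H s r δ hs hδ
    refine ⟨b, X₀ + N₁ + 2, by omega, fun x hx => ?_⟩
    obtain ⟨a1, a2, a3⟩ := hN₁ x (by omega)
    have hx0 : (0 : ℝ) < x := by exact_mod_cast (by omega : 0 < x)
    have hx2 : (2 : ℝ) ≤ x := by exact_mod_cast (by omega : 2 ≤ x)
    have hfl : (⌊(x : ℝ) ^ ε⌋₊ : ℝ) ≤ (x : ℝ) ^ ε := Nat.floor_le (by positivity)
    have hfl2 : (x : ℝ) ^ ε / 2 ≤ (⌊(x : ℝ) ^ ε⌋₊ : ℝ) := by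
      have := Nat.lt_floor_add_one ((x : ℝ) ^ ε)
      linarith
    have hxe : (x : ℝ) ^ ε ≤ x := by
      calc (x : ℝ) ^ ε ≤ (x : ℝ) ^ (1 : ℝ) := Real.rpow_le_rpow_of_exponent_le (by linarith) (by linarith)
        _ = x := Real.rpow_one _
    have hle : x + ⌊(x : ℝ) ^ ε⌋₊ ≤ 2 * x := by
      have : ⌊(x : ℝ) ^ ε⌋₊ ≤ x := by
        have h := hfl.trans hxe
        exact_mod_cast h
      omega
    have hcast : ((x + ⌊(x : ℝ) ^ ε⌋₊ : ℕ) : ℝ) - (x : ℝ) = (⌊(x : ℝ) ^ ε⌋₊ : ℝ) := by push_cast; ring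
    have hlen : (((2 * x : ℕ)) : ℝ) ^ (ε / 2) ≤ ((x + ⌊(x : ℝ) ^ ε⌋₊ : ℕ) : ℝ) - (x : ℝ) := by
      rw [hcast]
      push_cast
      rw [Real.mul_rpow (by norm_num) hx0.le]
      have h5 : (2 : ℝ) ^ (ε / 2) ≤ 2 := by
        calc (2 : ℝ) ^ (ε / 2) ≤ (2 : ℝ) ^ (1 : ℝ) := Real.rpow_le_rpow_of_exponent_le (by norm_num) (by linarith)
          _ = 2 := Real.rpow_one _
      have h6 : (0 : ℝ) ≤ (x : ℝ) ^ (ε / 2) := by positivity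
      nlinarith
    obtain ⟨h1, -, h3⟩ := H1 (2 * x) (by omega) x (x + ⌊(x : ℝ) ^ ε⌋₊) hle hlen
    rw [hcast] at h1
    have hl2 : Real.log ((2 * x : ℕ) : ℝ) = Real.log 2 + Real.log x := by
      push_cast
      rw [Real.log_mul (by norm_num) hx0.ne']
    have hl3 : Real.log 2 ≤ 1 := by
      have := Real.log_two_lt_d9
      linarith
    have hl4 : 0 < Real.log 2 := Real.log_pos (by norm_num)
    have hlpos : 0 < Real.log ((2 * x : ℕ) : ℝ) := by rw [hl2]; linarith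
    have hlle : Real.log ((2 * x : ℕ) : ℝ) ≤ 2 * Real.log x := by rw [hl2]; linarith
    refine ⟨?_, h1, hle, hlpos, by rw [hl2]; nlinarith, by linarith, fun χ => ?_⟩
    · refine le_trans ?_ h1
      have e1 : κ / 2 ^ (T.card + 1) * (x : ℝ) ^ ε / Real.log x ^ T.card =
          κ * ((x : ℝ) ^ ε / 2) / (2 * Real.log x) ^ T.card := by
        rw [mul_pow, pow_succ]
        field_simp
      rw [e1]
      gcongr
    · obtain ⟨P, hP1, -, hP3⟩ := h3 χ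
      refine ⟨P, hP1, ?_⟩
      rwa [hcast] at hP3
  refine ⟨C, t, ht, ?_, ?_, ?_⟩
  · obtain ⟨b, x₀, hx₀, H1⟩ := hint 1 1 1 le_rfl one_pos
    refine ⟨x₀ + N₁, fun q q' hq hqS hq'S hlt hno => ?_⟩
    obtain ⟨h1, h2, h3, h4, h5, h6, -⟩ := H1 q (by omega)
    have hpos : (0 : ℝ) < (GN 1 T' W C t (2 * q) q (q + ⌊(q : ℝ) ^ ε⌋₊)).card := by
      refine lt_of_lt_of_le ?_ h2
      positivity
    obtain ⟨m, hm⟩ := card_pos.1 (by exact_mod_cast hpos : 0 < (GN 1 T' W C t (2 * q) q (q + ⌊(q : ℝ) ^ ε⌋₊)).card)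
    obtain ⟨m1, m2, m3⟩ := hsub _ _ _ m h3 hm
    have hq'm : q' ≤ m := by
      by_contra hc
      exact hno m m1 (by omega) m3
    have hq0 : (0 : ℝ) < q := by exact_mod_cast (by omega : 0 < q)
    have hdiff : (q' : ℝ) - q ≤ (q : ℝ) ^ ε := by
      have h7 : (q' : ℝ) ≤ ((q + ⌊(q : ℝ) ^ ε⌋₊ : ℕ) : ℝ) := by exact_mod_cast hq'm.trans m2
      have h8 : (⌊(q : ℝ) ^ ε⌋₊ : ℝ) ≤ (q : ℝ) ^ ε := Nat.floor_le (by positivity)
      push_cast at h7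
      linarith
    have hs1 : √(q : ℝ) * √(q : ℝ) = q := Real.mul_self_sqrt hq0.le
    have hs2 : √(q' : ℝ) * √(q' : ℝ) = q' := Real.mul_self_sqrt (Nat.cast_nonneg _)
    have hs3 : 0 < √(q : ℝ) := Real.sqrt_pos.2 hq0
    have hs4 : √(q : ℝ) ≤ √(q' : ℝ) := Real.sqrt_le_sqrt (by exact_mod_cast hlt.le)
    have hlt2 : √(q' : ℝ) - √(q : ℝ) < (q : ℝ) ^ (ε - 1 / 2) := by
      rw [Real.rpow_sub hq0, ← Real.sqrt_eq_rpow, lt_div_iff₀ hs3]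
      have hpe : (0 : ℝ) < (q : ℝ) ^ ε := by positivity
      nlinarith
    refine ⟨hlt2, hlt2.trans_le ?_⟩
    apply Real.rpow_le_one_of_one_le_of_nonpos
    · exact_mod_cast (by omega : 1 ≤ q)
    · linarith
  · obtain ⟨b, x₀, hx₀, H1⟩ := hint 1 1 1 le_rfl one_pos
    refine ⟨κ / 2 ^ (T.card + 1), by positivity, x₀, fun x hx => ?_⟩
    obtain ⟨h1, -, h3, -⟩ := H1 x hx
    refine h1.trans ?_
    rw [← Set.ncard_coe_finset, Nat.cast_le]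
    refine Set.ncard_le_ncard ?_ ?_
    · intro m hm
      obtain ⟨m1, m2, m3⟩ := hsub _ _ _ m h3 (mem_coe.1 hm)
      refine ⟨m1, ?_, m3⟩
      have h7 : (m : ℝ) ≤ ((x + ⌊(x : ℝ) ^ ε⌋₊ : ℕ) : ℝ) := by exact_mod_cast m2
      have h8 : (⌊(x : ℝ) ^ ε⌋₊ : ℝ) ≤ (x : ℝ) ^ ε := Nat.floor_le (by positivity)
      push_cast at h7
      linarith
    · apply (Set.finite_Iic ⌊(x : ℝ) + (x : ℝ) ^ ε⌋₊).subset
      rintro m ⟨-, h4, -⟩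
      exact Nat.le_floor h4
  · intro s r hs
    obtain ⟨b, x₀, hx₀, H1⟩ := hint s r (κ / 2) hs (by positivity)
    refine ⟨2 * b, x₀ + N₁, fun x hx χ => ?_⟩
    obtain ⟨-, h2, h3, h4, h5, h6, h7⟩ := H1 x (by omega)
    obtain ⟨P, hP1, hP3⟩ := h7 χ
    have hPne : P.Nonempty := by
      by_contra hemp
      rw [not_nonempty_iff_eq_empty] at hemp
      rw [hemp, biUnion_empty, sdiff_empty] at hP3
      have h8 := h2.trans hP3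
      have hpos : 0 < κ * (⌊(x : ℝ) ^ ε⌋₊ : ℝ) / Real.log ((2 * x : ℕ) : ℝ) ^ T.card := by positivity
      have h9 : κ / 2 * (⌊(x : ℝ) ^ ε⌋₊ : ℝ) / Real.log ((2 * x : ℕ) : ℝ) ^ T.card =
          (κ * (⌊(x : ℝ) ^ ε⌋₊ : ℝ) / Real.log ((2 * x : ℕ) : ℝ) ^ T.card) / 2 := by ring
      linarith
    obtain ⟨z, hz⟩ := hPne
    obtain ⟨z1, z2, z3⟩ := hP1 z hz
    have hlx : 0 ≤ Real.log (x : ℝ) := Real.log_natCast_nonneg x
    refine ⟨z.1, z.2, z1, z2.trans ?_, fun l hl => ?_⟩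
    · rw [pow_mul]
      exact pow_le_pow_left₀ h4.le h5 b
    · obtain ⟨z4, z5⟩ := z3 l hl
      obtain ⟨m1, m2, m3⟩ := hsub _ _ _ _ h3 z4
      refine ⟨m1, ?_, m3, z5⟩
      have h7 : ((z.1 + l * z.2 : ℕ) : ℝ) ≤ ((x + ⌊(x : ℝ) ^ ε⌋₊ : ℕ) : ℝ) := by exact_mod_cast m2
      have h8 : (⌊(x : ℝ) ^ ε⌋₊ : ℝ) ≤ (x : ℝ) ^ ε := Nat.floor_le (by positivity)
      push_cast at h7 ⊢
      linarith

end Pool.Agent.Results.MP_82fd4a_nt.PatternsAllGaps
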