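import Mathlib
import Pool.Agent.T2H62.MD.Z

set_option autoImplicit false

/-! # Andrica's inequality for sieved random primes: the probability of a violation

Random primes: every integer `n` without a prime factor `p ≤ A log n` is chosen with probability
`∏_{p ≤ A log n} (1 - 1/p)⁻¹ / log n` (at most `1`), the other integers are not chosen, and the choices are independent
(`A = 1`: Granville's modification of Cramer's model). Almost surely, consecutive elements `r < r'` of the set `R` of the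
random primes satisfy `√r' - √r < 1` for all large `r`; and the probability that the inequality fails for some `r ≥ x` is
`exp (-(2 + o(1)) √x / log x)`. -/

namespace Pool.Agent.Results.MP_82fd4a_nt.SievedRandomRate

open Finset Filter Topology MeasureTheory ProbabilityTheory

open scoped Classical in
/-- the probability that `n` is a random prime -/
noncomputable def prob (A : ℝ) (n : ℕ) : ℝ :=
  if ∀ p : ℕ, p.Prime → (p : ℝ) ≤ A * Real.log n → ¬ p ∣ n then
    min 1 ((∏ p ∈ (Icc 1 ⌊A * Real.log n⌋₊).filter Nat.Prime, (1 - (p : ℝ)⁻¹)⁻¹) / Real.log n) else 0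

/-- the events `S n` (`n` is a random prime) are independent with the probabilities `prob A n` -/
def Model (A : ℝ) {Ω : Type*} [MeasurableSpace Ω] (μ : Measure Ω) (S : ℕ → Set Ω) : Prop :=
  IsProbabilityMeasure μ ∧ (∀ n, MeasurableSet (S n)) ∧ iIndepSet S μ ∧
    ∀ n, μ (S n) = ENNReal.ofReal (prob A n)

/-- `r < r'` are consecutive elements of `R` -/
def Consecutive (R : Set ℕ) (r r' : ℕ) : Prop := r ∈ R ∧ r' ∈ R ∧ r < r' ∧ ∀ n ∈ Ioo r r', n ∉ R

/-- Andrica's inequality fails for some consecutive random primes `r < r'`, `r ≥ x` -/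
def Violation {Ω : Type*} (S : ℕ → Set Ω) (x : ℕ) : Set Ω :=
  {ω | ∃ r r' : ℕ, x ≤ r ∧ Consecutive {n | ω ∈ S n} r r' ∧ 1 ≤ Real.sqrt r' - Real.sqrt r}

theorem result (A : ℝ) (hA : 0 < A) :
    -- the model exists
    (∃ (μ : Measure (ℕ → Bool)) (S : ℕ → Set (ℕ → Bool)), Model A μ S) ∧
    ∀ (Ω : Type) [MeasurableSpace Ω] (μ : Measure Ω) (S : ℕ → Set Ω), Model A μ S →
      -- almost surely, only finitely many violations
      (∀ᵐ ω ∂μ, ∀ᶠ r : ℕ in atTop, ∀ r' : ℕ, Consecutive {n | ω ∈ S n} r r' → Real.sqrt r' - Real.sqrt r < 1) ∧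
      -- the probability of a violation beyond `x`
      Tendsto (fun x : ℕ => Real.log (μ.real (Violation S x)) / (Real.sqrt x / Real.log x)) atTop (𝓝 (-2)) := by
  classical
  have hprob : ∀ n, prob A n = Pool.Agent.T2H53.GW.pr A n := fun n => rfl
  refine ⟨?_, ?_⟩
  · obtain ⟨μ, S, h1, h2, h3, h4⟩ := Pool.Agent.T2H53.GW.exists_model (prob A)
      (fun n => by rw [hprob]; exact Pool.Agent.T2H53.GW.pr_nonneg A n)
      (fun n => by rw [hprob]; exact Pool.Agent.T2H53.GW.pr_le_one A n)
    exact ⟨μ, S, h1, h2, h3, h4⟩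
  · rintro Ω _ μ S ⟨hμ, hm, hi, hp⟩
    have hp' : ∀ n, μ.real (S n) = Pool.Agent.T2H53.GW.pr A n := fun n => by
      rw [measureReal_def, hp n, ENNReal.toReal_ofReal (by rw [hprob]; exact Pool.Agent.T2H53.GW.pr_nonneg A n), hprob]
    refine ⟨?_, ?_⟩
    · filter_upwards [Pool.Agent.T2H62.MD.gaps_upper A hA hm hi hp'] with ω hω
      filter_upwards [hω 3 (by norm_num), Pool.Agent.T2H62.MD.log_pow_small 3 2 (1 / 2) (by norm_num) (by norm_num),
        eventually_ge_atTop 3] with r h1 h2 h3 r' h4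
      obtain ⟨n, hn, hnS⟩ := h1
      rw [mem_Ioc] at hn
      have hr0 : (0 : ℝ) < r := by exact_mod_cast (by omega : 0 < r)
      have hl : 0 < Real.log (r : ℝ) := Real.log_pos (by exact_mod_cast (by omega : 1 < r))
      have h5 : r' ≤ n := by
        by_contra h6
        exact h4.2.2.2 n (mem_Ioo.2 ⟨hn.1, by omega⟩) hnS
      obtain ⟨f, hf⟩ : ∃ f : ℕ, f = ⌊Real.log (r : ℝ) ^ (3 : ℝ)⌋₊ := ⟨_, rfl⟩
      rw [← hf] at hn
      have h6 : (r' : ℝ) ≤ r + f := by exact_mod_cast h5.trans hn.2
      have h7 : Real.log (r : ℝ) ^ (3 : ℝ) = Real.log (r : ℝ) ^ 3 := by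
        rw [← Real.rpow_natCast]
        norm_num
      have h8 : (f : ℝ) ≤ Real.log (r : ℝ) ^ 3 := by
        rw [← h7, hf]
        exact Nat.floor_le (by positivity)
      rw [← Real.sqrt_eq_rpow] at h2
      have hs0 : 0 < Real.sqrt r := Real.sqrt_pos.2 hr0
      have hs : Real.sqrt r ^ 2 = r := Real.sq_sqrt hr0.le
      have h9 : Real.sqrt r' < Real.sqrt r + 1 := by
        rw [Real.sqrt_lt' (by positivity)]
        nlinarith
      linarith
    · have h1 : ∀ x, Violation S x = Pool.Agent.T2H62.MD.Fail S x := by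
        intro x
        unfold Violation Pool.Agent.T2H62.MD.Fail Consecutive
        ext ω
        constructor
        · rintro ⟨r, r', h1, ⟨h2, h3, h4, h5⟩, h6⟩
          exact ⟨r, r', h1, h4, h2, h3, h5, h6⟩
        · rintro ⟨r, r', h1, h4, h2, h3, h5, h6⟩
          exact ⟨r, r', h1, ⟨h2, h3, h4, h5⟩, h6⟩
      simp_rw [h1]
      exact Pool.Agent.T2H62.MD.fail_rate A hA hm hi hp'

end Pool.Agent.Results.MP_82fd4a_nt.SievedRandomRate
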